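import Pool.Agent.W770.SA.Mink

set_option autoImplicit false

/-!
# MP_b1773a: covering Kakeya sets by semialgebraic sets

A set is *basic open of degree at most `D`* if it is given by finitely many strict polynomial
inequalities `P i > 0` whose degrees add up to at most `D`; a set has *complexity at most `D`* if it
is a union of at most `D` such sets.

If a Kakeya set `K` is covered by semialgebraic sets `A j` of complexity at most `D j`, then
`∑ (D j ^ c |A j|) ^ (1 / (n + 1))` is bounded below, `c` depending on `n` only; for one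
set `A` of complexity `D` containing `K` this says `|A| ≥ C⁻¹ D ^ (-c)`.  Consequently
every Kakeya set which has at all small scales `δ` an outer semialgebraic approximation of complexity
`δ ^ (-γ)`, of volume at most `δ ^ (-γ) |N_δ K|`, has lower Minkowski dimension at least
`n - (c + 1) γ`; the lower Minkowski dimension is `n` if this is true for all `γ > 0`.
-/

open MeasureTheory Set Filter Topology ENNReal NNReal Metric

namespace Pool.Agent.Results.MP_b1773a_an.AlgebraicCovers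

/-- `S` is given by finitely many inequalities `P i > 0`, of degrees adding up to at most `D`. -/
def BasicOpen {n : ℕ} (D : ℕ) (S : Set (EuclideanSpace ℝ (Fin n))) : Prop :=
  ∃ (m : ℕ) (P : Fin m → MvPolynomial (Fin n) ℝ), ∑ i, (P i).totalDegree ≤ D ∧
    S = {x | ∀ i, 0 < MvPolynomial.eval (fun l => x l) (P i)}

/-- `A` is the union of `D` (possibly empty) basic open sets of degree at most `D`. -/
def ComplexityLE {n : ℕ} (D : ℕ) (A : Set (EuclideanSpace ℝ (Fin n))) : Prop :=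
  ∃ S : Fin D → Set (EuclideanSpace ℝ (Fin n)), (∀ i, BasicOpen D (S i)) ∧ A = ⋃ i, S i

/-- The surface measure of the unit sphere. -/
noncomputable def surf (n : ℕ) : Measure (sphere (0 : EuclideanSpace ℝ (Fin n)) 1) :=
  (volume : Measure (EuclideanSpace ℝ (Fin n))).toSphere

/-- In every direction of `S` there is a unit segment which meets `K` in length at least `ell`. -/
def Long {n : ℕ} (K : Set (EuclideanSpace ℝ (Fin n)))
    (S : Set (sphere (0 : EuclideanSpace ℝ (Fin n)) 1)) (ell : ℝ) : Prop :=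
  ∀ e ∈ S, ∃ z : EuclideanSpace ℝ (Fin n), ENNReal.ofReal ell ≤
    volume {s : ℝ | s ∈ Icc (0:ℝ) 1 ∧ z + s • (e : EuclideanSpace ℝ (Fin n)) ∈ K}

/-- `K` contains a unit segment in every direction. -/
def HasSegments {n : ℕ} (K : Set (EuclideanSpace ℝ (Fin n))) : Prop :=
  ∀ e : sphere (0 : EuclideanSpace ℝ (Fin n)) 1, ∃ a : EuclideanSpace ℝ (Fin n),
    ∀ t ∈ Icc (0:ℝ) 1, a + t • (e : EuclideanSpace ℝ (Fin n)) ∈ K

/-- At all small scales `δ` the set `K` is contained in a semialgebraic set of complexity at most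
`δ ^ (-γ)` and of volume at most `δ ^ (-γ)` times the volume of the `δ`-neighbourhood of `K`. -/
def OuterTame {n : ℕ} (γ : ℝ) (K : Set (EuclideanSpace ℝ (Fin n))) : Prop :=
  ∃ δ₀ : ℝ, 0 < δ₀ ∧ ∀ δ : ℝ, 0 < δ → δ < δ₀ →
    ∃ (D : ℕ) (A : Set (EuclideanSpace ℝ (Fin n))), 1 ≤ D ∧ (D:ℝ) ≤ δ ^ (-γ) ∧
      ComplexityLE D A ∧ K ⊆ A ∧
      volume A ≤ ENNReal.ofReal (δ ^ (-γ)) * volume (thickening δ K)

/-- **Semialgebraic covers of Kakeya sets.**  For every `n ≥ 2` there are `c` and `C` such that: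

1. (countable covers)  if in every direction of `S` some unit segment meets `K` in length
  at least `ell > 0`, and `K` is covered by sets `A j` of complexity at most `D j`, then
  `ell ^ n |S| ≤ C (∑ (D j ^ c |A j|) ^ (1 / (n + 1))) ^ (n + 1)`;
2. (one set)  if `K` is contained in a set `A` of complexity at most `D`, then
  `ell ^ n |S| ≤ C D ^ c |A|`;
3. (Minkowski dimension)  if `K` contains a unit segment in every direction and is outer tame with
  exponent `γ ≥ 0`, then `|N_δ K| ≥ c' δ ^ ((c + 1) γ)` for all `0 < δ < 1`, with some `c' > 0`;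
4. in particular if `K` is outer tame for all `γ > 0`, then for every `ε > 0` there is
  `c' > 0` with `|N_δ K| ≥ c' δ ^ ε` for all `0 < δ < 1`. -/
theorem result (n : ℕ) (hn : 2 ≤ n) : ∃ (c : ℕ) (C : ℝ), 0 < C ∧
    (∀ (K : Set (EuclideanSpace ℝ (Fin n))) (S : Set (sphere (0 : EuclideanSpace ℝ (Fin n)) 1))
      (ell : ℝ), 0 < ell → Long K S ell →
      (∀ (D : ℕ → ℕ) (A : ℕ → Set (EuclideanSpace ℝ (Fin n))), (∀ j, 1 ≤ D j) →
        (∀ j, ComplexityLE (D j) (A j)) → K ⊆ ⋃ j, A j →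
        ENNReal.ofReal (ell ^ n) * surf n S ≤ ENNReal.ofReal C *
          (∑' j, ((D j : ℝ≥0∞) ^ c * volume (A j)) ^ (1 / ((n:ℝ) + 1))) ^ (n + 1)) ∧
      (∀ (D : ℕ) (A : Set (EuclideanSpace ℝ (Fin n))), 1 ≤ D → ComplexityLE D A → K ⊆ A →
        ENNReal.ofReal (ell ^ n) * surf n S ≤ ENNReal.ofReal (C * (D:ℝ) ^ c) * volume A)) ∧
    (∀ K : Set (EuclideanSpace ℝ (Fin n)), HasSegments K →
      (∀ γ : ℝ, 0 ≤ γ → OuterTame γ K → ∃ c' : ℝ, 0 < c' ∧ ∀ δ : ℝ, 0 < δ → δ < 1 →
        ENNReal.ofReal (c' * δ ^ (((c:ℝ) + 1) * γ)) ≤ volume (thickening δ K)) ∧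
      ((∀ γ : ℝ, 0 < γ → OuterTame γ K) → ∀ ε : ℝ, 0 < ε → ∃ c' : ℝ, 0 < c' ∧
        ∀ δ : ℝ, 0 < δ → δ < 1 →
          ENNReal.ofReal (c' * δ ^ ε) ≤ volume (thickening δ K))) := by
  have hn1 : 1 ≤ n := by omega
  refine ⟨Pool.Agent.W770.SA.exp1 n, Pool.Agent.W770.SA.cst1 n,
    Pool.Agent.W770.SA.cst1_pos hn1, ?_, ?_⟩
  · intro K S ell hell hK
    exact ⟨fun D A hD hA hcov => Pool.Agent.W770.SA.cover_ineq hn1 hell hK hD hA hcov,
      fun D A hD hA hcov => Pool.Agent.W770.SA.one_set hn1 hell hK hD hA hcov⟩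
  · intro K hK
    refine ⟨fun γ hγ hA => Pool.Agent.W770.SA.mink hn1 hK hγ hA, ?_⟩
    intro hA ε hε
    have hpos : (0:ℝ) < (Pool.Agent.W770.SA.exp1 n : ℝ) + 1 := by positivity
    have h := Pool.Agent.W770.SA.mink (γ := ε / ((Pool.Agent.W770.SA.exp1 n : ℝ) + 1)) hn1 hK
      (by positivity) (hA _ (by positivity))
    rwa [mul_div_cancel₀ _ hpos.ne'] at h

end Pool.Agent.Results.MP_b1773a_an.AlgebraicCovers
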