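import Pool.Agent.W46.HD.Main

/-!
# Hausdorff dimension of Kakeya sets in high dimensions
-/

set_option autoImplicit false

/-- Every subset `K` of `ℝ^n` that contains a unit segment in every direction has Hausdorff
dimension at least `1 + (n - 1) / 1.6752`. -/
theorem Pool.Agent.Results.MP_b1773a_an.ArithmeticHausdorff.result (n : ℕ) (hn : 1 ≤ n)
    (K : Set (EuclideanSpace ℝ (Fin n)))
    (hK : ∀ e : EuclideanSpace ℝ (Fin n), ‖e‖ = 1 → ∃ a : EuclideanSpace ℝ (Fin n),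
      ∀ t ∈ Set.Icc (0 : ℝ) 1, a + t • e ∈ K) :
    ENNReal.ofReal (1 + ((n : ℝ) - 1) / (16752 / 10000)) ≤ dimH K := by
  obtain ⟨d, rfl⟩ : ∃ d, n = d + 1 := ⟨n - 1, by omega⟩
  have h := Pool.Agent.W46.HD.hausdorff d K hK
  have e : (1 : ℝ) + (((d + 1 : ℕ) : ℝ) - 1) / (16752 / 10000) = 1 + d / (16752 / 10000) := by
    push_cast
    ring
  rw [e]
  exact h
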