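import Pool.Agent.W46.KK.Final
import Pool.Agent.W904.AK.Sdc2

/-!
# Minkowski dimension of Kakeya sets in high dimensions
-/

set_option autoImplicit false

open MeasureTheory Filter Topology

/-- Let `n ≥ 1`. There is `κ > 0` such that every set `K ⊆ ℝ^n` with a unit segment in every direction
has `|N_δ K| ≥ κ δ ^ ((n - 1) (1 - 1 / 1.67108))` for all `δ > 0`; in particular every Kakeya set in
`ℝ^n` has lower Minkowski dimension at least `1 + (n - 1) / 1.67108`. -/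
theorem Pool.Agent.Results.MP_b1773a_an.ArithmeticMinkowski.result (n : ℕ) (hn : 1 ≤ n) :
    (∃ κ : ℝ, 0 < κ ∧ ∀ K : Set (EuclideanSpace ℝ (Fin n)),
      (∀ e : EuclideanSpace ℝ (Fin n), ‖e‖ = 1 → ∃ a : EuclideanSpace ℝ (Fin n),
        ∀ t ∈ Set.Icc (0 : ℝ) 1, a + t • e ∈ K) →
      ∀ δ : ℝ, 0 < δ →
        ENNReal.ofReal (κ * δ ^ (((n : ℝ) - 1) * (1 - 1 / 1.67108)))
          ≤ volume (Metric.thickening δ K)) ∧
    (∀ K : Set (EuclideanSpace ℝ (Fin n)), IsCompact K →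
      (∀ e : EuclideanSpace ℝ (Fin n), ‖e‖ = 1 → ∃ a : EuclideanSpace ℝ (Fin n),
        ∀ t ∈ Set.Icc (0 : ℝ) 1, a + t • e ∈ K) →
      1 + ((n : ℝ) - 1) / 1.67108 ≤
        n - limsup (fun δ : ℝ =>
          Real.log (volume (Metric.thickening δ K)).toReal / Real.log δ) (𝓝[>] 0)) := by
  have hsd : Pool.Agent.W46.KK.SD (167108 / 100000) := by
    obtain ⟨S, h⟩ := Pool.Agent.W904.AK.sdc2
    exact ⟨S, h⟩
  have e : (1.67108 : ℝ) = 167108 / 100000 := by norm_num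
  have hc : (1 : ℝ) ≤ 167108 / 100000 := by norm_num
  rw [e]
  constructor
  · obtain ⟨d, rfl⟩ : ∃ d, n = d + 1 := ⟨n - 1, by omega⟩
    obtain ⟨κ, hκ, h⟩ := Pool.Agent.W46.KK.kakeya_volume hsd hc d
    refine ⟨κ, hκ, fun K hK δ hδ => ?_⟩
    refine le_trans (le_of_eq ?_) (h K hK δ hδ)
    congr 3
    push_cast
    ring
  · intro K hK hseg
    exact Pool.Agent.W46.KK.kakeya_dim hsd hc hn K hK hseg
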