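import Pool.Agent.W769.Cons.Normals

set_option autoImplicit false

/-!
# MP_b1773a: Kakeya sets whose segments lie on a conservative family of lines

A Kakeya set contains, for every direction `e`, a unit segment of some line `x(e) + ℝ e`.  We prove
that it has positive Lebesgue measure (hence full Hausdorff and Minkowski dimension) as soon as, for
the directions in some nonempty open set, the lines form a *conservative* family up to a Lipschitz
error:

* **Euclidean form (A)**: `x(e) = ∇h(e) + b(e)` where `h` is positively homogeneous of degree one and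
  differentiable at every point of an open cone, and `b` is locally Lipschitz: for `b = 0` these are
  the normal lines of a wave front (hedgehog) with support function `h`.
* **Heights form (B)**: the lines are `{(t, a(p) + t V(p)) : t ∈ ℝ}`, where `a = ∇g + b`, `g` is
  differentiable at every point of an open set `U`, `b` is locally Lipschitz, and the direction map
  `V` is locally Lipschitz and locally strongly monotone; for instance `V(p) = p`: the positions form
  a gradient field as a function of the direction `(1, p)`.  Here all but at most `d` of the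
  horizontal slices of the union have positive measure.

No modulus of continuity is assumed: `∇h` and `∇g` may be discontinuous, and if they are continuous
they may be nowhere differentiable and of no Hölder class.  If the gradient is continuous and the set
is closed, then the positions and the lengths of the segments on the lines are arbitrary.

Proof: for large `κ` the minimisers `w` of `g(w) + κ/2 |v - w|²` give, for every `v` in a ball, a point
with `∇g(w) = κ (v - w)`; the pairs `(v, w)` form a monotone set, so that (Minty) they are Lipschitz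
functions of `z = κ (v - w) + τ V(w)`, which runs through a compact set of positive measure.  In the
variable `z` the slice maps are a pencil `z + β(z) + (t - τ) ν(z)` of Lipschitz maps, `β` with
constant less than one; its Jacobian at a point is a polynomial in `t` which does not vanish at `τ`.
-/

open MeasureTheory Set Metric
open scoped ENNReal

namespace Pool.Agent.Results.MP_b1773a_an.ConservativeFamilies

/-- Euclidean space `ℝ^n`. -/
abbrev E (n : ℕ) : Type := EuclideanSpace ℝ (Fin n)

/-- `K ⊆ ℝ^n` has positive (outer) Lebesgue measure, Hausdorff dimension `n`, and its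
`δ`-neighbourhoods have measure bounded below by a positive constant. -/
def Full {n : ℕ} (K : Set (E n)) : Prop :=
  0 < volume K ∧ dimH K = (n : ℝ≥0∞) ∧ ∃ c > 0, ∀ δ > 0, c ≤ volume (thickening δ K)

/-- `C` is a nonempty open cone, `h` is positively homogeneous of degree one and differentiable at
every point of `C`, and `b` is positively homogeneous of degree zero and locally Lipschitz on `C`.
The family consists of the lines `{∇h(e) + b(e) + s e : s ∈ ℝ}`, `e` a unit vector in `C`. -/
structure NormalFamily {n : ℕ} (C : Set (E n)) (h : E n → ℝ) (b : E n → E n) : Prop where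
  isOpen : IsOpen C
  nonempty : C.Nonempty
  cone : ∀ x ∈ C, ∀ r : ℝ, 0 < r → r • x ∈ C
  hom : ∀ x ∈ C, ∀ r : ℝ, 0 < r → h (r • x) = r * h x
  differentiable : ∀ x ∈ C, DifferentiableAt ℝ h x
  homb : ∀ x ∈ C, ∀ r : ℝ, 0 < r → b (r • x) = b x
  lipschitz : LocallyLipschitzOn C b

/-- `K` contains segments of all the lines of the family: either for one common interval of the
parameter `s`, or `K` is closed, `∇h` is continuous on `C`, and the intervals are arbitrary. -/
def ContainsNormals {n : ℕ} (C : Set (E n)) (h : E n → ℝ) (b : E n → E n) (K : Set (E n)) : Prop :=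
  (∃ s₁ s₂ : ℝ, s₁ < s₂ ∧ ∀ e ∈ C, ‖e‖ = 1 → ∀ s ∈ Icc s₁ s₂, gradient h e + b e + s • e ∈ K) ∨
    (IsClosed K ∧ ContinuousOn (gradient h) C ∧ ∀ e ∈ C, ‖e‖ = 1 →
      ∃ s₁ s₂ : ℝ, s₁ < s₂ ∧ ∀ s ∈ Icc s₁ s₂, gradient h e + b e + s • e ∈ K)

/-- `U` is nonempty and open, `g` is differentiable at every point of `U`, `b` and `V` are locally
Lipschitz on `U`, and `V` is locally strongly monotone on `U`: near every point of `U`,
`(V(x) - V(y)) · (x - y) ≥ c |x - y|²` for some `c > 0`.  The family consists of the lines
`{(t, ∇g(p) + b(p) + t V(p)) : t ∈ ℝ}` in `ℝ^(d+1)`, `p ∈ U`. -/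
structure HeightFamily {d : ℕ} (U : Set (E d)) (g : E d → ℝ) (b V : E d → E d) : Prop where
  isOpen : IsOpen U
  nonempty : U.Nonempty
  differentiable : ∀ p ∈ U, DifferentiableAt ℝ g p
  lipschitz : LocallyLipschitzOn U b
  lipschitzV : LocallyLipschitzOn U V
  monotoneV : ∀ p ∈ U, ∃ c > 0, ∃ r > 0, ∀ x ∈ ball p r, ∀ y ∈ ball p r,
    c * ‖x - y‖ ^ 2 ≤ inner ℝ (V x - V y) (x - y)

/-- The point of `ℝ^(d+1)` with first coordinate (height) `t` and remaining coordinates `y`. -/
noncomputable def pt {d : ℕ} (t : ℝ) (y : E d) : E (d + 1) :=
  WithLp.toLp 2 (Fin.cons t (WithLp.ofLp y))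

/-- `K` contains segments of all the lines of the family: either for one common interval of heights,
or `K` is closed, `∇g` is continuous on `U`, and the intervals are arbitrary. -/
def ContainsHeights {d : ℕ} (U : Set (E d)) (g : E d → ℝ) (b V : E d → E d)
    (K : Set (E (d + 1))) : Prop :=
  (∃ t₁ t₂ : ℝ, t₁ < t₂ ∧ ∀ p ∈ U, ∀ t ∈ Icc t₁ t₂, pt t (gradient g p + b p + t • V p) ∈ K) ∨
    (IsClosed K ∧ ContinuousOn (gradient g) U ∧ ∀ p ∈ U,
      ∃ t₁ t₂ : ℝ, t₁ < t₂ ∧ ∀ t ∈ Icc t₁ t₂, pt t (gradient g p + b p + t • V p) ∈ K)

/-- **Sets containing segments of all the lines of a conservative family, up to Lipschitz errors,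
have positive measure and full dimension.** -/
theorem result :
    (∀ (n : ℕ) (C : Set (E n)) (h : E n → ℝ) (b : E n → E n), 1 ≤ n → NormalFamily C h b →
      ∀ K : Set (E n), ContainsNormals C h b K → Full K) ∧
    (∀ (d : ℕ) (U : Set (E d)) (g : E d → ℝ) (b V : E d → E d), HeightFamily U g b V →
      {t : ℝ | volume ((fun p => gradient g p + b p + t • V p) '' U) = 0}.encard ≤ d ∧
      ∀ K : Set (E (d + 1)), ContainsHeights U g b V K → Full K) := by
  refine ⟨?_, ?_⟩
  · intro n C h b hn F K hK
    refine Pool.Agent.W769.Cons.full_of_pos ?_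
    rcases hK with ⟨s₁, s₂, h12, hK⟩ | ⟨hKc, hcont, hK⟩
    · exact Pool.Agent.W769.Cons.normals_common hn F.isOpen F.nonempty F.cone F.differentiable
        F.hom F.lipschitz F.homb h12 hK
    · exact Pool.Agent.W769.Cons.normals_closed hn F.isOpen F.nonempty F.cone F.differentiable
        F.hom hcont F.lipschitz F.homb hKc hK
  · intro d U g b V F
    refine ⟨Pool.Agent.W769.Cons.slices F.isOpen F.nonempty F.differentiable F.lipschitz
      F.lipschitzV F.monotoneV, fun K hK => ?_⟩
    have hpos : 0 < volume K := by
      rcases hK with ⟨t₁, t₂, h12, hK⟩ | ⟨hKc, hcont, hK⟩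
      · exact Pool.Agent.W769.Cons.union_common F.isOpen F.nonempty F.differentiable F.lipschitz
          F.lipschitzV F.monotoneV h12 hK
      · exact Pool.Agent.W769.Cons.union_closed F.isOpen F.nonempty F.differentiable hcont
          F.lipschitz F.lipschitzV F.monotoneV hKc hK
    exact Pool.Agent.W769.Cons.full_of_pos hpos

end Pool.Agent.Results.MP_b1773a_an.ConservativeFamilies
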