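import Pool.Agent.W769.Kak.Sphere

set_option autoImplicit false

/-!
# MP_b1773a: a dimension bound in terms of the Hölder exponent of a selection

If a set `K ⊆ ℝ^n` contains unit segments `x(e) + [0,1] e` for all directions `e` in a nonempty
relatively open subset of the unit sphere, and `x` is `α`-Hölder there for some `0 < α < 1`, then
`dim_H K ≥ min(n, ⌈1 / (1 - α)⌉)`.
-/

open MeasureTheory Set
open scoped ENNReal

namespace Pool.Agent.Results.MP_b1773a_an.HoelderDimension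

theorem result (n : ℕ) (hn : 2 ≤ n) (α C : ℝ) (hα0 : 0 < α) (hα1 : α < 1)
    (W : Set (EuclideanSpace ℝ (Fin n))) (hW : IsOpen W)
    (hWne : ∃ e₀ ∈ W, ‖e₀‖ = 1)
    (x : EuclideanSpace ℝ (Fin n) → EuclideanSpace ℝ (Fin n))
    (hx : ∀ e ∈ W, ‖e‖ = 1 → ∀ e' ∈ W, ‖e'‖ = 1 → ‖x e - x e'‖ ≤ C * ‖e - e'‖ ^ α)
    (K : Set (EuclideanSpace ℝ (Fin n)))
    (hK : ∀ e ∈ W, ‖e‖ = 1 → ∀ s ∈ Icc (0 : ℝ) 1, x e + s • e ∈ K) :
    ((min n ⌈1 / (1 - α)⌉₊ : ℕ) : ℝ≥0∞) ≤ dimH K := by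
  obtain ⟨e₀, he0, he1⟩ := hWne
  have h1α : 0 < 1 - α := by linarith
  set m := ⌈1 / (1 - α)⌉₊ with hm
  have hm2 : 2 ≤ m := by
    rw [hm]
    have : (1 : ℝ) < 1 / (1 - α) := by rw [lt_div_iff₀ h1α]; linarith
    have h2 : 1 < ⌈1 / (1 - α)⌉₊ := by
      rw [Nat.lt_ceil]; exact_mod_cast this
    omega
  set k := min n m - 1 with hk
  have hk1 : 1 ≤ k := by omega
  have hkn : k + 1 ≤ n := by omega
  have hkm : k + 1 ≤ m := by omega
  have hkα : 1 - 1 / (k : ℝ) < α := by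
    have h3 : k < ⌈1 / (1 - α)⌉₊ := by omega
    rw [Nat.lt_ceil] at h3
    have hkpos : (0 : ℝ) < k := by exact_mod_cast hk1
    have h4 : (1 - α) < 1 / (k : ℝ) := by
      rw [lt_div_iff₀ h1α] at h3
      rw [lt_div_iff₀ hkpos]; linarith
    linarith
  obtain ⟨ι, hι⟩ := Pool.Agent.W769.Kak.hoelder_sphere hk1 hkn hkα hα1.le hW he0 he1 hx hK
  have h1 := Pool.Agent.W769.Kak.dimH_ge_of_proj ι hι
  have h2 : k + 1 = min n m := by omega
  rwa [h2] at h1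

end Pool.Agent.Results.MP_b1773a_an.HoelderDimension
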