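import Pool.Agent.W769.Iso.Cube

set_option autoImplicit false

/-!
# MP_b1773a: an explicit lower bound for the measure of Kakeya sets with a Hölder selection

Let `n = d + 1 ≥ 3` and let `K ⊆ ℝ^n` be any set that contains the segments
`{(t, a(v) + t v) : 0 ≤ t ≤ 1}` in the directions `(1, v)`, `v` in a cube `Q` of side `2r` of `ℝ^d`,
where the position `a(v)` is an `α`-Hölder function of the direction with constant `H`, for some
`1 - 1/d < α ≤ 1`.  Then

`|K| ≥ c r^d (1 + H r^(α-1))^(-d(d-1)/(1-d(1-α)))`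

with `c > 0` depending on `d` and `α` only.  For Lipschitz selections (`α = 1`, constant `L`) this is
`|K| ≥ c r^d (1 + L)^(-d(d-1))`.

The bound is uniform, so it can be applied to neighbourhoods of a Kakeya set: if for every `δ` the
`δ`-neighbourhood of `K` contains such segments with positions that are Hölder with
constant at most `δ^(-η)`, every `η > 0`, then `K` has full (lower) Minkowski dimension.  Here the
selection may depend on `δ`.

The proof is an isoperimetric inequality for Jacobians: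
`|∫ η 1_E(F) det DF| ≤ C |E|^(1/d) ∫ |∇η| |cof DF|`, applied to mollifications of the slice maps
`F_t(v) = a(v) + t v`, whose Jacobians are monic polynomials in `t`.
-/

open MeasureTheory Set
open scoped ENNReal

namespace Pool.Agent.Results.MP_b1773a_an.HoelderVolume

/-- The point of `ℝ^{d+1}` with first coordinate (height) `t` and remaining coordinates `y`. -/
noncomputable def pt {d : ℕ} (t : ℝ) (y : Fin d → ℝ) : EuclideanSpace ℝ (Fin (d + 1)) :=
  WithLp.toLp 2 (Fin.cons t y)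

/-- `K` contains the segments `{(t, a v + t v) : 0 ≤ t ≤ 1}`, `v` in the cube with centre `v₀` and
side `2 r`, and the position `a v` is `α`-Hölder with constant `H` there (sup norms on `ℝ^d`). -/
def ContainsFamily {d : ℕ} (K : Set (EuclideanSpace ℝ (Fin (d + 1)))) (v₀ : Fin d → ℝ)
    (r α H : ℝ) : Prop :=
  ∃ a : (Fin d → ℝ) → Fin d → ℝ,
    (∀ v ∈ Metric.closedBall v₀ r, ∀ w ∈ Metric.closedBall v₀ r, ‖a v - a w‖ ≤ H * ‖v - w‖ ^ α) ∧
    ∀ v ∈ Metric.closedBall v₀ r, ∀ t ∈ Icc (0 : ℝ) 1, pt t (a v + t • v) ∈ K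

/-- **Explicit volume bound, and Minkowski dimension.** -/
theorem result (d : ℕ) (hd : 2 ≤ d) (α : ℝ) (hα : 1 - 1 / (d : ℝ) < α) (hα1 : α ≤ 1) :
    (∃ c : ℝ, 0 < c ∧ ∀ (K : Set (EuclideanSpace ℝ (Fin (d + 1)))) (v₀ : Fin d → ℝ) (r H : ℝ),
      0 < r → 0 ≤ H → ContainsFamily K v₀ r α H →
      ENNReal.ofReal (c * r ^ d *
        (1 + H * r ^ (α - 1)) ^ (-((d : ℝ) * (d - 1)) / (1 - d * (1 - α)))) ≤ volume K) ∧
    (∀ (K : Set (EuclideanSpace ℝ (Fin (d + 1)))) (v₀ : Fin d → ℝ) (r : ℝ), 0 < r →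
      (∀ η : ℝ, 0 < η → ∃ δ₀ : ℝ, 0 < δ₀ ∧ ∀ δ : ℝ, 0 < δ → δ < δ₀ →
        ContainsFamily (Metric.thickening δ K) v₀ r α (δ ^ (-η))) →
      ∀ ε : ℝ, 0 < ε → ∃ c : ℝ, 0 < c ∧ ∀ δ : ℝ, 0 < δ → δ < 1 →
        ENNReal.ofReal (c * δ ^ ε) ≤ volume (Metric.thickening δ K)) := by
  have hdpos : (0 : ℝ) < d := by exact_mod_cast (show 0 < d by omega)
  have hd2 : (2 : ℝ) ≤ d := by exact_mod_cast hd
  have hγe : 1 - (d : ℝ) * (1 - α) = α * d - d + 1 := by ring
  have hγ : 0 < α * d - d + 1 := by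
    have h1 : (1 - 1 / (d : ℝ)) * d < α * d := mul_lt_mul_of_pos_right hα hdpos
    rw [sub_mul, one_mul, one_div, inv_mul_cancel₀ hdpos.ne'] at h1
    linarith
  have part1 : ∃ c : ℝ, 0 < c ∧ ∀ (K : Set (EuclideanSpace ℝ (Fin (d + 1)))) (v₀ : Fin d → ℝ)
      (r H : ℝ), 0 < r → 0 ≤ H → ContainsFamily K v₀ r α H →
      ENNReal.ofReal (c * r ^ d *
        (1 + H * r ^ (α - 1)) ^ (-((d : ℝ) * (d - 1)) / (1 - d * (1 - α)))) ≤ volume K := by
    obtain ⟨c, hc, hmain⟩ := Pool.Agent.W769.Iso.volume_cube hd hα1 hγ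
    refine ⟨c, hc, ?_⟩
    rintro K v₀ r H hr hH ⟨a, ha, hK⟩
    rw [hγe]
    have h := hmain H v₀ r a hH hr ha ((MeasurableEquiv.toLp 2 (Fin (d + 1) → ℝ)) ⁻¹' K) hK
    rwa [(PiLp.volume_preserving_toLp (Fin (d + 1))).measure_preimage_equiv] at h
  refine ⟨part1, ?_⟩
  obtain ⟨c, hc, hmain⟩ := part1
  intro K v₀ r hr hK ε hε
  set E : ℝ := (d : ℝ) * (d - 1) / (1 - d * (1 - α)) with hE
  have hEp : 0 < E := by
    rw [hE, hγe]
    apply div_pos _ hγ
    apply mul_pos hdpos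
    linarith
  have hEn : -((d : ℝ) * (d - 1)) / (1 - d * (1 - α)) = -E := by rw [hE, neg_div]
  obtain ⟨δ₀, hδ₀, hfam⟩ := hK (ε / E) (by positivity)
  set s : ℝ := 1 + r ^ (α - 1) with hs
  have hsp : 0 < s := by positivity
  have key : ∀ δ : ℝ, 0 < δ → δ < δ₀ → δ < 1 →
      ENNReal.ofReal (c * r ^ d * s ^ (-E) * δ ^ ε) ≤ volume (Metric.thickening δ K) := by
    intro δ hδ hδδ hδ1
    refine le_trans ?_ (hmain _ v₀ r (δ ^ (-(ε / E))) hr (by positivity) (hfam δ hδ hδδ))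
    apply ENNReal.ofReal_le_ofReal
    rw [hEn, mul_assoc]
    apply mul_le_mul_of_nonneg_left _ (by positivity)
    have h1 : 1 + δ ^ (-(ε / E)) * r ^ (α - 1) ≤ s * δ ^ (-(ε / E)) := by
      have h2 : 1 ≤ δ ^ (-(ε / E)) :=
        Real.one_le_rpow_of_pos_of_le_one_of_nonpos hδ hδ1.le (by
          have : 0 < ε / E := by positivity
          linarith)
      rw [hs, add_mul, one_mul, mul_comm (r ^ (α - 1))]
      linarith
    calc s ^ (-E) * δ ^ ε = (s * δ ^ (-(ε / E))) ^ (-E) := by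
          rw [Real.mul_rpow hsp.le (by positivity), ← Real.rpow_mul hδ.le]
          congr 2
          field_simp
      _ ≤ (1 + δ ^ (-(ε / E)) * r ^ (α - 1)) ^ (-E) :=
          Real.rpow_le_rpow_of_nonpos (by positivity) h1 (by linarith)
  set δ₁ : ℝ := min δ₀ 1 / 2 with hδ₁
  have hm : 0 < min δ₀ 1 := lt_min hδ₀ one_pos
  have hδ₁p : 0 < δ₁ := by positivity
  have hδ₁a : δ₁ < δ₀ := by
    have := min_le_left δ₀ 1
    rw [hδ₁]; linarith
  have hδ₁b : δ₁ < 1 := by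
    have := min_le_right δ₀ 1
    rw [hδ₁]; linarith
  set c1 : ℝ := c * r ^ d * s ^ (-E) with hc1
  have hc1p : 0 < c1 := by positivity
  refine ⟨c1 * δ₁ ^ ε, by positivity, ?_⟩
  intro δ hδ hδ1
  have hδε : δ ^ ε ≤ 1 := Real.rpow_le_one hδ.le hδ1.le hε.le
  have hδ₁ε : δ₁ ^ ε ≤ 1 := Real.rpow_le_one hδ₁p.le hδ₁b.le hε.le
  rcases le_or_gt δ δ₁ with h | h
  · refine le_trans ?_ (key δ hδ (lt_of_le_of_lt h hδ₁a) hδ1)
    apply ENNReal.ofReal_le_ofReal
    have : 0 < δ ^ ε := by positivity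
    calc c1 * δ₁ ^ ε * δ ^ ε ≤ c1 * 1 * δ ^ ε := by gcongr
      _ = c1 * δ ^ ε := by ring
  · refine le_trans ?_ ((key δ₁ hδ₁p hδ₁a hδ₁b).trans
      (measure_mono (Metric.thickening_mono h.le K)))
    apply ENNReal.ofReal_le_ofReal
    calc c1 * δ₁ ^ ε * δ ^ ε ≤ c1 * δ₁ ^ ε * 1 := by gcongr
      _ = c1 * δ₁ ^ ε := by ring

end Pool.Agent.Results.MP_b1773a_an.HoelderVolume
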