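import Pool.Agent.W769.Kak.Wrap

set_option autoImplicit false

/-!
# MP_b1773a: Kakeya sets whose segments can be chosen in the critical Sobolev class

A Kakeya set contains, for every direction, a unit segment; choosing one segment for each direction
gives a selection.  We prove that a set in `ℝ^n`, `n = d + 1`, which contains segments in all
directions `(1, v)`, `v` in a cube of `ℝ^d`, such that the selection is continuous and of class
`W^{1-1/d, d}` on that cube (for instance Hölder of exponent `> 1 - 1/d`; such selections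
may be nowhere differentiable), has positive Lebesgue measure, hence full Hausdorff and Minkowski
dimension; in fact all but at most `d` of its horizontal slices have positive measure.

The proof uses the distributional Jacobian of the slice maps `f_t(v) = a(v) + t v`: it is
absolutely continuous as a measure in the target, hence vanishes if the image of `f_t` is null,
but as a polynomial in `t` it has degree exactly `d`.
-/

open MeasureTheory Set
open scoped ENNReal

namespace Pool.Agent.Results.MP_b1773a_an.SobolevSelection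

/-- The point of `ℝ^{d+1}` with first coordinate (height) `t` and remaining coordinates `y`. -/
noncomputable def pt {d : ℕ} (t : ℝ) (y : Fin d → ℝ) : EuclideanSpace ℝ (Fin (d + 1)) :=
  WithLp.toLp 2 (Fin.cons t y)

/-- `a` is continuous on `Q` and moreover
* either it has finite Gagliardo seminorm of the critical class `W^{1-1/d, d}(Q)`:
  `∬_{Q×Q} |a(v) - a(w)|^d / |v - w|^{2d-1} dv dw < ∞`,
* or it is Hölder on `Q` with some exponent `α > 1 - 1/d`.
(Norms on `Fin d → ℝ` are sup norms.) -/
def Admissible {d : ℕ} (a : (Fin d → ℝ) → Fin d → ℝ) (Q : Set (Fin d → ℝ)) : Prop :=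
  ContinuousOn a Q ∧
    ((∫⁻ v in Q, ∫⁻ w in Q, ‖a v - a w‖ₑ ^ d / ‖v - w‖ₑ ^ (2 * d - 1) < ∞) ∨
      ∃ C α : ℝ, 1 - 1 / (d : ℝ) < α ∧ ∀ v ∈ Q, ∀ w ∈ Q, ‖a v - a w‖ ≤ C * ‖v - w‖ ^ α)

/-- **Kakeya sets with a selection in the critical Sobolev class have positive measure.** -/
theorem result (d : ℕ) (hd : 1 ≤ d) (v₀ : Fin d → ℝ) (R : ℝ) (hR : 0 < R)
    (a : (Fin d → ℝ) → Fin d → ℝ) (ha : Admissible a (Metric.closedBall v₀ R))
    (t₁ t₂ : ℝ) (h₁₂ : t₁ < t₂) (K : Set (EuclideanSpace ℝ (Fin (d + 1))))
    (hK : ∀ v ∈ Metric.closedBall v₀ R, ∀ t ∈ Icc t₁ t₂, pt t (a v + t • v) ∈ K) :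
    {t : ℝ | t ∈ Icc t₁ t₂ ∧ volume {y : Fin d → ℝ | pt t y ∈ K} = 0}.encard ≤ d ∧
      0 < volume K ∧ dimH K = ((d + 1 : ℕ) : ℝ≥0∞) ∧
      ∃ c > 0, ∀ δ > 0, c ≤ volume (Metric.thickening δ K) := by
  have hslices : ∀ t : Fin (d + 1) → ℝ, Function.Injective t →
      ∃ i, volume ((fun v => a v + t i • v) '' Metric.closedBall v₀ R) ≠ 0 := by
    intro t ht
    rcases ha.2 with h | ⟨C, α, hα, hH⟩
    · exact Pool.Agent.W769.Kak.slices_on hd v₀ hR ha.1 h.ne t ht
    · have hdpos : (0 : ℝ) < d := by exact_mod_cast hd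
      have hα0 : 0 < α := by
        have : 1 / (d : ℝ) ≤ 1 := by
          rw [div_le_one hdpos]; exact_mod_cast hd
        linarith
      have hαd : (d : ℝ) - 1 < α * d := by
        have := mul_lt_mul_of_pos_right hα hdpos
        rw [sub_mul, one_div, inv_mul_cancel₀ hdpos.ne'] at this
        linarith
      exact Pool.Agent.W769.Kak.slices_hoelder_on hd v₀ hR hα0 hαd ha.1 hH t ht
  have hbad := Pool.Agent.W769.Kak.encard_bad_le
    (P := fun t => volume ((fun v => a v + t • v) '' Metric.closedBall v₀ R) = 0) hslices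
  have hproj : volume (Pool.Agent.W769.Kak.proj (id : Fin (d + 1) → Fin (d + 1)) '' K) ≠ 0 := by
    refine Pool.Agent.W769.Kak.swept_pos (σ := fun v => v) ha.1 continuousOn_id h₁₂
      (Set.finite_of_encard_le_coe hbad).countable ?_
    intro v hv t ht
    exact ⟨pt t (a v + t • v), hK v hv t ht, rfl⟩
  have hvol := Pool.Agent.W769.Kak.volume_pos_of_proj id hproj
  have hdimle : dimH K ≤ ((d + 1 : ℕ) : ℝ≥0∞) := by
    refine (dimH_mono (subset_univ K)).trans ?_
    rw [Real.dimH_univ_eq_finrank]
    simp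
  refine ⟨?_, hvol, le_antisymm hdimle (Pool.Agent.W769.Kak.dimH_ge_of_proj id hproj),
    volume K, hvol, fun δ hδ => measure_mono (Metric.self_subset_thickening hδ K)⟩
  refine (Set.encard_le_encard ?_).trans hbad
  rintro t ⟨htI, ht0⟩
  refine measure_mono_null ?_ ht0
  rintro _ ⟨v, hv, rfl⟩
  exact hK v hv t htI

end Pool.Agent.Results.MP_b1773a_an.SobolevSelection
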